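import Pool.Agent.H48.FXC.FIN

/-!
# MP_ea41d9_gt: the kernel inequality with the normal term, one arc and the whole circle
-/

namespace Pool.Agent.H60.FXE

open Set MeasureTheory Pool.Agent.H48.FXC

/-- The hinge inequality with the normal term: `c` is the cosine of an angle such that any two
unit normal vectors of the curve can be moved to this angle by the group. -/
def HingeC (K m : ℝ → ℝ → ℝ) (c : ℝ) : Prop :=
  ∀ x y z, K x z * K y z + m z x * m z y +
    c * (Real.sqrt (1 - K x z ^ 2 - m z x ^ 2) * Real.sqrt (1 - K y z ^ 2 - m z y ^ 2)) ≤ K x y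

variable {K m : ℝ → ℝ → ℝ} {L ε c : ℝ}

theorem HingeC.shift (hC : HingeC K m c) (a : ℝ) :
    HingeC (fun s t => K (s + a) (t + a)) (fun z x => m (z + a) (x + a)) c :=
  fun _ _ _ => hC _ _ _

theorem HingeC.neg (hC : HingeC K m c) :
    HingeC (fun s t => K (-s) (-t)) (fun z x => -m (-z) (-x)) c := fun x y z => by
  have h := hC (-x) (-y) (-z)
  simp only [neg_sq, neg_mul_neg]
  exact h

/-- The algebraic heart: the pair of functions moves at least as fast as on a great circle. -/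
theorem speed_alg {P Q p q κ c : ℝ} (hc0 : 0 ≤ c) (hc1 : c ≤ 1) (hκ : κ < 0)
    (hκ1 : -1 ≤ κ) (hcκ : κ * (1 + c) ≤ 3 * c - 1) (hP : P ^ 2 + p ^ 2 ≤ 1)
    (hQ : Q ^ 2 + q ^ 2 ≤ 1)
    (h : P * Q + p * q + c * (Real.sqrt (1 - P ^ 2 - p ^ 2) * Real.sqrt (1 - Q ^ 2 - q ^ 2)) ≤ κ) :
    (1 - κ) ^ 2 ≤ (P - Q) ^ 2 + (p - q) ^ 2 := by
  obtain ⟨x, hx⟩ : ∃ x, x = Real.sqrt (1 - P ^ 2 - p ^ 2) := ⟨_, rfl⟩
  obtain ⟨y, hy⟩ : ∃ y, y = Real.sqrt (1 - Q ^ 2 - q ^ 2) := ⟨_, rfl⟩
  have hx0 : 0 ≤ x := hx ▸ Real.sqrt_nonneg _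
  have hy0 : 0 ≤ y := hy ▸ Real.sqrt_nonneg _
  have hx2 : x ^ 2 = 1 - P ^ 2 - p ^ 2 := by
    rw [hx]
    exact Real.sq_sqrt (by linarith only [hP])
  have hy2 : y ^ 2 = 1 - Q ^ 2 - q ^ 2 := by
    rw [hy]
    exact Real.sq_sqrt (by linarith only [hQ])
  rw [← hx, ← hy] at h
  obtain ⟨s, hs⟩ : ∃ s, s = x * y := ⟨_, rfl⟩
  have hs0 : 0 ≤ s := hs ▸ mul_nonneg hx0 hy0
  rw [← hs] at h
  have hs2 : s ^ 2 = x ^ 2 * y ^ 2 := by rw [hs]; ring
  have hxy : 2 * s ≤ x ^ 2 + y ^ 2 := by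
    rw [hs]
    nlinarith only [sq_nonneg (x - y)]
  -- Cauchy-Schwarz
  have hcs : (P * Q + p * q) ^ 2 ≤ (1 - x ^ 2) * (1 - y ^ 2) := by
    rw [hx2, hy2]
    nlinarith only [sq_nonneg (P * q - p * Q)]
  have h1 : 0 ≤ c * s - κ := by
    have := mul_nonneg hc0 hs0
    linarith only [this, hκ]
  have h2 : c * s - κ ≤ -(P * Q + p * q) := by linarith only [h]
  have h3 : (c * s - κ) ^ 2 ≤ (1 - x ^ 2) * (1 - y ^ 2) := by
    have : (c * s - κ) ^ 2 ≤ (-(P * Q + p * q)) ^ 2 := pow_le_pow_left₀ h1 h2 2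
    rw [neg_sq] at this
    exact this.trans hcs
  have h4 : (1 - x ^ 2) * (1 - y ^ 2) = 1 - x ^ 2 - y ^ 2 + s ^ 2 := by rw [hs2]; ring
  rw [h4] at h3
  have hs1 : s ≤ 1 := by
    have h5 : x ^ 2 ≤ 1 := by nlinarith only [hx2, sq_nonneg P, sq_nonneg p]
    have h6 : y ^ 2 ≤ 1 := by nlinarith only [hy2, sq_nonneg Q, sq_nonneg q]
    nlinarith only [hxy, h5, h6, hs2, sq_nonneg (x - y)]
  have h5 : c * s - κ ≤ 1 - s := by
    have h6 : (c * s - κ) ^ 2 ≤ (1 - s) ^ 2 := by nlinarith only [h3, hxy]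
    exact le_of_sq_le_sq h6 (by linarith only [hs1])
  have h6 : (1 - c ^ 2) * s ≤ 2 * c * (1 - κ) := by
    have h7 : s * (1 + c) ≤ 1 + κ := by linarith only [h5]
    have h8 := mul_le_mul_of_nonneg_left h7 (sub_nonneg.2 hc1)
    nlinarith only [h8, hcκ]
  have h7 := mul_le_mul_of_nonneg_left h6 hs0
  have h8 : x ^ 2 + y ^ 2 - 2 * (c * s) ≤ 1 - κ ^ 2 := by nlinarith only [h3, h7]
  nlinarith only [h8, h, hx2, hy2]

/-- A function which moves at least as fast as the cosine between two extreme values. -/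
theorem arccos_arc {T : ℝ → ℝ} {b : ℝ} {C : NNReal} (hlip : LipschitzWith C T)
    (hb : 0 < b) (hT : ∀ t ∈ Ioo 0 b, |T t| < 1)
    (hder : ∀ᵐ t, t ∈ Ioo 0 b → Real.sqrt (1 - T t ^ 2) ≤ -deriv T t) :
    b ≤ Real.pi := by
  have hgrow : ∀ x y, 0 < x → x ≤ y → y < b →
      y - x ≤ Real.arccos (T y) - Real.arccos (T x) := by
    intro x y hx hxy hy
    obtain ⟨z, hz, hmax⟩ := (isCompact_Icc (a := x) (b := y)).exists_isMaxOn
      ⟨x, le_refl _, hxy⟩ hlip.continuous.abs.continuousOn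
    have hr1 : |T z| < 1 := hT z ⟨hx.trans_le hz.1, hz.2.trans_lt hy⟩
    have hle : ∀ t ∈ Icc x y, |T t| ≤ |T z| := fun t ht => hmax ht
    have hsub : Icc (-|T z|) |T z| ⊆ ({-1, 1} : Set ℝ)ᶜ := by
      intro t ht hmem
      rcases hmem with h | h
      · rw [h] at ht
        linarith only [ht.1, hr1]
      · rw [mem_singleton_iff] at h
        rw [h] at ht
        linarith only [ht.2, hr1]
    obtain ⟨D, hD⟩ := ((Real.contDiffOn_arccos (n := 1)).mono hsub).exists_lipschitzOnWith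
      (by decide) (convex_Icc _ _) isCompact_Icc
    have hac : AbsolutelyContinuousOnInterval T x y :=
      (hlip.lipschitzOnWith (s := uIcc x y)).absolutelyContinuousOnInterval
    have hmain := ac_lower (C := 1) hxy (f := fun t => Real.arccos (T t))
      (ac_comp hD (fun t ht => by
        rw [uIcc_of_le hxy] at ht
        exact abs_le.1 (hle t ht)) hac) (by
      filter_upwards [hlip.ae_differentiableAt (μ := volume), hder] with t h1 h2 ht
      have ht' : t ∈ Ioo 0 b := ⟨hx.trans ht.1, ht.2.trans hy⟩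
      have hTt' := abs_lt.1 (hT t ht')
      have h3 : HasDerivAt (fun t => Real.arccos (T t))
          (-(1 / Real.sqrt (1 - T t ^ 2)) * deriv T t) t :=
        (Real.hasDerivAt_arccos hTt'.1.ne' hTt'.2.ne).comp t h1.hasDerivAt
      rw [h3.deriv]
      have hpos : 0 < Real.sqrt (1 - T t ^ 2) := by
        apply Real.sqrt_pos.2
        nlinarith only [hTt'.1, hTt'.2]
      have h4 := h2 ht'
      rw [neg_mul, ← mul_neg, one_div, inv_mul_eq_div, le_div_iff₀ hpos, one_mul]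
      exact h4)
    rw [one_mul] at hmain
    exact hmain
  apply le_of_forall_pos_le_add
  intro e he
  obtain ⟨x, hx, hxd⟩ : ∃ x : ℝ, 0 < x ∧ x < min (e / 2) (b / 2) :=
    exists_between (lt_min (half_pos he) (half_pos hb))
  have hx1 : x < e / 2 := hxd.trans_le (min_le_left _ _)
  have hx2 : x < b / 2 := hxd.trans_le (min_le_right _ _)
  have h3 := hgrow x (b - x) hx (by linarith only [hx2]) (by linarith only [hx])
  have h4 := Real.arccos_le_pi (T (b - x))
  have h5 := Real.arccos_nonneg (T x)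
  linarith only [h3, h4, h5, hx1]

/-- The kernel takes the value one only at the start of a period. -/
theorem Ker_ne_one (hK : Ker K m L ε) {s t : ℝ} (h0 : s < t) (h1 : t - s < L) : K s t ≠ 1 := by
  intro h
  obtain ⟨k, hk⟩ := hK.one s t h
  have hL := hK.Lpos
  have hk1 : (k : ℝ) < 0 := by
    by_contra hc
    have hc' : (0 : ℝ) ≤ k := le_of_not_gt hc
    nlinarith only [hk, h0, mul_nonneg hc' hL.le]
  have hk2 : (-1 : ℝ) < k := by
    by_contra hc
    have hc' : (k : ℝ) ≤ -1 := le_of_not_gt hc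
    nlinarith only [hk, h1, mul_nonneg (sub_nonneg.2 hc') hL.le]
  have hk3 : (k : ℤ) < 0 := by exact_mod_cast hk1
  have hk4 : (-1 : ℤ) < k := by exact_mod_cast hk2
  omega

/-- One arc between two points at maximal distance. -/
theorem arc_le (hK : Ker K m L ε) (hC : HingeC K m c) (hc0 : 0 ≤ c) (hc1 : c ≤ 1) {b : ℝ}
    (hb : 0 < b) (hbL : b < L) (hmin : ∀ s t, K 0 b ≤ K s t) (hneg : K 0 b < 0)
    (hcb : K 0 b * (1 + c) ≤ 3 * c - 1) : b ≤ Real.pi := by
  have hw : 0 < 1 - K 0 b := by linarith only [hneg]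
  have hlip : LipschitzWith 2 (fun t => (K 0 t - K b t) / (1 - K 0 b)) := by
    apply LipschitzWith.of_dist_le_mul
    intro t t'
    have h1 := hK.lip 0 t t'
    have h2 := hK.lip b t t'
    have hw1 : 1 ≤ 1 - K 0 b := by linarith only [hneg]
    have h3 : (K 0 t - K b t) / (1 - K 0 b) - (K 0 t' - K b t') / (1 - K 0 b) =
        ((K 0 t - K 0 t') - (K b t - K b t')) / (1 - K 0 b) := by ring
    rw [Real.dist_eq, Real.dist_eq, h3, abs_div, abs_of_pos hw, div_le_iff₀ hw]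
    have h4 := abs_sub (K 0 t - K 0 t') (K b t - K b t')
    have h5 : (0 : ℝ) ≤ |t - t'| := abs_nonneg _
    have h6 : ((2 : NNReal) : ℝ) = 2 := rfl
    rw [h6]
    nlinarith only [h1, h2, h4, h5, hw1, mul_nonneg h5 (sub_nonneg.2 hw1)]
  have hlipP : LipschitzWith 1 (K 0) := LipschitzWith.of_dist_le_mul fun t t' => by
    rw [Real.dist_eq, Real.dist_eq]
    simpa using hK.lip 0 t t'
  have hlipQ : LipschitzWith 1 (K b) := LipschitzWith.of_dist_le_mul fun t t' => by
    rw [Real.dist_eq, Real.dist_eq]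
    simpa using hK.lip b t t'
  refine arccos_arc hlip hb (fun t ht => ?_) ?_
  · have h1 := hK.le_one 0 t
    have h2 := hK.le_one b t
    have h3 := hmin 0 t
    have h4 := hmin b t
    have h5 : K 0 t ≠ 1 := Ker_ne_one hK ht.1 (by linarith only [ht.2, hbL])
    have h6 : K b t ≠ 1 := by
      rw [hK.symm b t]
      exact Ker_ne_one hK ht.2 (by linarith only [ht.1, hbL])
    have h5' : K 0 t < 1 := lt_of_le_of_ne h1 h5
    have h6' : K b t < 1 := lt_of_le_of_ne h2 h6
    rw [abs_div, abs_of_pos hw, div_lt_one hw, abs_lt]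
    constructor
    · linarith only [h3, h6']
    · linarith only [h4, h5']
  · filter_upwards [hlipP.ae_differentiableAt (μ := volume),
      hlipQ.ae_differentiableAt (μ := volume)] with t hP hQ ht
    have hp := hK.m_nonpos hbL hmin hneg ht
    have hq := hK.m_nonneg hbL hmin hneg ht
    have hsp := speed_alg hc0 hc1 hneg (hK.neg_one_le 0 b) hcb (hK.sq_le 0 t) (hK.sq_le b t)
      (hC 0 b t)
    have hd : deriv (fun t => (K 0 t - K b t) / (1 - K 0 b)) t =
        (m t 0 - m t b) / (1 - K 0 b) := by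
      have h1 := (hP.hasDerivAt.sub hQ.hasDerivAt).div_const (1 - K 0 b)
      rw [hK.m_eq_deriv hP.hasDerivAt, hK.m_eq_deriv hQ.hasDerivAt] at h1
      exact h1.deriv
    rw [hd]
    apply Real.sqrt_le_iff.2
    constructor
    · rw [← neg_div]
      exact div_nonneg (by linarith only [hp, hq]) hw.le
    · have h2 : 1 ≤ ((K 0 t - K b t) ^ 2 + (m t 0 - m t b) ^ 2) / (1 - K 0 b) ^ 2 := by
        rw [le_div_iff₀ (by positivity), one_mul]
        exact hsp
      rw [add_div, ← div_pow, ← div_pow] at h2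
      rw [neg_sq]
      linarith only [h2]

/-- The whole circle: the length is at most `2 π`. -/
theorem circle_le (hK : Ker K m L ε) (hC : HingeC K m c) (hc0 : 0 ≤ c) (hc1 : c ≤ 1) {b : ℝ}
    (hb : 0 < b) (hbL : b < L) (hmin : ∀ s t, K 0 b ≤ K s t) (hneg : K 0 b < 0)
    (hcb : K 0 b * (1 + c) ≤ 3 * c - 1) : L ≤ 2 * Real.pi := by
  have h1 := arc_le hK hC hc0 hc1 hb hbL hmin hneg hcb
  have hval : K (-0) (-(L - b)) = K 0 b := by
    have := hK.per 0 (-(L - b))
    rw [show -(L - b) + L = b by ring] at this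
    rw [neg_zero, this]
  have h2 := arc_le hK.neg hC.neg hc0 hc1 (b := L - b) (sub_pos.2 hbL) (by linarith only [hb])
    (fun s t => by
      rw [hval]
      exact hmin _ _) (by rw [hval]; exact hneg) (by rw [hval]; exact hcb)
  linarith only [h1, h2]

end Pool.Agent.H60.FXE
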