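import Pool.Agent.H48.FXD.ALL
import Pool.Agent.H60.FXE.KerC

/-!
# MP_ea41d9_gt: directions of minimizing geodesics at the points of the circle, normal term
-/

open Bundle Manifold Filter Set
open scoped ContDiff Topology

namespace Pool.Agent.H60.FXE

open Pool.Agent.H48.FXD

variable {E : Type*} [NormedAddCommGroup E] [NormedSpace ℝ E] [FiniteDimensional ℝ E]
  {M : Type*} [MetricSpace M] [ChartedSpace E M] [IsManifold 𝓘(ℝ, E) ∞ M]
  [RiemannianBundle (fun x : M => TangentSpace 𝓘(ℝ, E) x)]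
  [IsContMDiffRiemannianBundle 𝓘(ℝ, E) ∞ E (fun x : M => TangentSpace 𝓘(ℝ, E) x)]
  [IsRiemannianManifold 𝓘(ℝ, E) M]
  {G : Type*} [Group G] [TopologicalSpace G] [MulAction G M] {F : ℝ → M} {L : ℝ}

variable (E G) in
/-- Any two unit vectors normal to the circle at one of its points can be moved by the group to an
angle with cosine at least `c`. -/
def NormalAngle (F : ℝ → M) (c : ℝ) : Prop :=
  ∀ (t : ℝ) (v w : E), tin (F t) v (vel E F t) = 0 → tin (F t) w (vel E F t) = 0 →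
    tn (F t) v = 1 → tn (F t) w = 1 → ∃ g : G, c ≤ tin (F t) (dg g (F t) v) w

omit [FiniteDimensional ℝ E] [IsManifold 𝓘(ℝ, E) ∞ M]
  [IsContMDiffRiemannianBundle 𝓘(ℝ, E) ∞ E (fun x : M => TangentSpace 𝓘(ℝ, E) x)]
  [IsRiemannianManifold 𝓘(ℝ, E) M] in
theorem tin_smul_left (z : M) (a : ℝ) (v w : E) : tin z (a • v) w = a * tin z v w := by
  have h := @real_inner_smul_left (TangentSpace 𝓘(ℝ, E) z) _ _ v w a
  exact h

omit [FiniteDimensional ℝ E] [IsManifold 𝓘(ℝ, E) ∞ M]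
  [IsContMDiffRiemannianBundle 𝓘(ℝ, E) ∞ E (fun x : M => TangentSpace 𝓘(ℝ, E) x)]
  [IsRiemannianManifold 𝓘(ℝ, E) M] in
theorem tin_add_left (z : M) (v v' w : E) : tin z (v + v') w = tin z v w + tin z v' w := by
  have h := @inner_add_left ℝ (TangentSpace 𝓘(ℝ, E) z) _ _ _ v v' w
  exact h

/-- The limit direction of a minimizing geodesic has norm at least one. -/
theorem one_le_tn
    (hDUB : ∀ z : M, ∀ r : ℝ, 1 < r → ∀ᶠ p : M × M in 𝓝 (z, z),
      dist p.1 p.2 ≤ r * tn z (extChartAt 𝓘(ℝ, E) z p.1 - extChartAt 𝓘(ℝ, E) z p.2))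
    {c : ℝ → M} {z x : M} (h : MinGeo c z x) (hx : z ≠ x) {v : E} (hv : LimDir z c v) :
    1 ≤ tn z v := by
  have hne := UF_neBot
  have h0 : 0 < dist z x := dist_pos.2 hx
  have key : ∀ r : ℝ, 1 < r → 1 ≤ r * tn z v := by
    intro r hr
    have h1 : Tendsto (fun s : ℝ => r * tn z (s⁻¹ • (extChartAt 𝓘(ℝ, E) z (c s) -
        extChartAt 𝓘(ℝ, E) z z))) UF (𝓝 (r * tn z v)) :=
      tendsto_const_nhds.mul (((tn_continuous z).tendsto v).comp hv)
    refine ge_of_tendsto h1 ?_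
    have e1 := UF_le (Ioc_mem_nhdsGT h0)
    have e2 := UF_le (((h.tendsto hx).prodMk_nhds tendsto_const_nhds) (hDUB z r hr))
    filter_upwards [e1, e2] with s hs hs2
    have hs0 : 0 < s := hs.1
    have h3 : dist (c s) z ≤ r * tn z (extChartAt 𝓘(ℝ, E) z (c s) -
      extChartAt 𝓘(ℝ, E) z z) := hs2
    rw [dist_comm, h.dist_start ⟨hs.1.le, hs.2⟩] at h3
    rw [tn_smul z (inv_nonneg.2 hs0.le), mul_left_comm, ← div_eq_inv_mul, le_div_iff₀ hs0,
      one_mul]
    exact h3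
  have h1 : Tendsto (fun r : ℝ => r * tn z v) (𝓝[>] 1) (𝓝 (1 * tn z v)) := by
    apply Tendsto.mono_left _ nhdsWithin_le_nhds
    apply Continuous.tendsto
    fun_prop
  have h2 := ge_of_tendsto h1 (by
    filter_upwards [self_mem_nhdsWithin] with r hr
    exact key r hr)
  rwa [one_mul] at h2

/-- Decomposition: two unit vectors can be moved by the group so that the normal parts have an
angle with cosine at least `c`. -/
theorem exists_move (hact : IsometricAction E M G) (hF : FixedCircle E G F L) {c : ℝ}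
    (hN : NormalAngle E G F c) (t : ℝ) {v w : E} (hv : tn (F t) v = 1) (hw : tn (F t) w = 1)
    (hv1 : tin (F t) v (vel E F t) ^ 2 < 1) (hw1 : tin (F t) w (vel E F t) ^ 2 < 1) :
    ∃ g : G, tin (F t) v (vel E F t) * tin (F t) w (vel E F t) +
      c * (Real.sqrt (1 - tin (F t) v (vel E F t) ^ 2) *
        Real.sqrt (1 - tin (F t) w (vel E F t) ^ 2)) ≤ tin (F t) (dg g (F t) v) w := by
  obtain ⟨u, hu⟩ : ∃ u : E, u = vel E F t := ⟨_, rfl⟩
  obtain ⟨a, ha⟩ : ∃ a : ℝ, a = tin (F t) v (vel E F t) := ⟨_, rfl⟩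
  obtain ⟨b, hb⟩ : ∃ b : ℝ, b = tin (F t) w (vel E F t) := ⟨_, rfl⟩
  rw [← ha] at hv1
  rw [← hb] at hw1
  rw [← ha, ← hb]
  have huu : tin (F t) u u = 1 := by
    rw [hu, ← tn_sq, tn_vel hF t, one_pow]
  have hvu : tin (F t) v u = a := by rw [ha, hu]
  have hwu : tin (F t) w u = b := by rw [hb, hu]
  obtain ⟨α, hα⟩ : ∃ α, α = Real.sqrt (1 - a ^ 2) := ⟨_, rfl⟩
  obtain ⟨β, hβ⟩ : ∃ β, β = Real.sqrt (1 - b ^ 2) := ⟨_, rfl⟩
  have hα0 : 0 < α := hα ▸ Real.sqrt_pos.2 (by linarith only [hv1])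
  have hβ0 : 0 < β := hβ ▸ Real.sqrt_pos.2 (by linarith only [hw1])
  have hα2 : α ^ 2 = 1 - a ^ 2 := by
    rw [hα]
    exact Real.sq_sqrt (by linarith only [hv1])
  have hβ2 : β ^ 2 = 1 - b ^ 2 := by
    rw [hβ]
    exact Real.sq_sqrt (by linarith only [hw1])
  rw [← hα, ← hβ]
  -- the normal parts
  have unit : ∀ (x : E) (k γ : ℝ), tn (F t) x = 1 → tin (F t) x u = k → 0 < γ →
      γ ^ 2 = 1 - k ^ 2 → tin (F t) (γ⁻¹ • (x + (-k) • u)) u = 0 ∧
        tn (F t) (γ⁻¹ • (x + (-k) • u)) = 1 := by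
    intro x k γ hx hxu hγ hγ2
    have h1 : tin (F t) (x + (-k) • u) u = 0 := by
      rw [tin_add_left, tin_smul_left, hxu, huu]
      ring
    refine ⟨by rw [tin_smul_left, h1, mul_zero], ?_⟩
    have h2 : tn (F t) (x + (-k) • u) ^ 2 = γ ^ 2 := by
      have h3 := tin_comm (F t) x (x + (-k) • u)
      rw [tn_sq, tin_add_left, tin_smul_left, tin_comm (F t) u (x + (-k) • u), h1, mul_zero,
        add_zero, h3, tin_add_left, tin_smul_left, ← tn_sq, hx, tin_comm (F t) u x, hxu, hγ2]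
      ring
    have h3 : tn (F t) (x + (-k) • u) = γ :=
      (pow_left_inj₀ (tn_nonneg _ _) hγ.le two_ne_zero).1 h2
    rw [tn_smul (F t) (inv_nonneg.2 hγ.le), h3, inv_mul_cancel₀ hγ.ne']
  obtain ⟨hv2, hv3⟩ := unit v a α hv hvu hα0 hα2
  obtain ⟨hw2, hw3⟩ := unit w b β hw hwu hβ0 hβ2
  obtain ⟨v', hv'⟩ : ∃ v' : E, v' = α⁻¹ • (v + (-a) • u) := ⟨_, rfl⟩
  obtain ⟨w', hw'⟩ : ∃ w' : E, w' = β⁻¹ • (w + (-b) • u) := ⟨_, rfl⟩
  rw [← hv'] at hv2 hv3
  rw [← hw'] at hw2 hw3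
  obtain ⟨g, hg⟩ := hN t v' w' (by rw [← hu]; exact hv2) (by rw [← hu]; exact hw2) hv3 hw3
  refine ⟨g, ?_⟩
  have hgz : g • F t = F t := hF.smul_eq g t
  have hgu : dg g (F t) u = u := by
    rw [hu]
    exact dg_vel hact hF t g
  have ev : v = α • v' + a • u := by
    rw [hv', smul_smul, mul_inv_cancel₀ hα0.ne', one_smul, neg_smul]
    abel
  have ew : w = β • w' + b • u := by
    rw [hw', smul_smul, mul_inv_cancel₀ hβ0.ne', one_smul, neg_smul]
    abel
  have h1 : dg g (F t) v = α • dg g (F t) v' + a • u := by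
    have h2 : dg g (F t) v = α • dg g (F t) v' + a • dg g (F t) u := by
      conv_lhs => rw [ev]
      rw [map_add, map_smul, map_smul]
    rw [h2, hgu]
  have h2 : tin (F t) (dg g (F t) v') u = 0 := by
    have h3 := dg_tin hact hgz v' u
    rw [hgu] at h3
    rw [h3]
    exact hv2
  have h3 : tin (F t) (dg g (F t) v) w = a * b + α * β * tin (F t) (dg g (F t) v') w' := by
    rw [h1, tin_add_left, tin_smul_left, tin_smul_left, tin_comm (F t) u w, hwu,
      tin_comm (F t) (dg g (F t) v') w]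
    conv_lhs => rw [ew]
    rw [tin_add_left, tin_smul_left, tin_smul_left, tin_comm (F t) u (dg g (F t) v'), h2,
      tin_comm (F t) w' (dg g (F t) v')]
    ring
  rw [h3]
  have h4 := mul_le_mul_of_nonneg_left hg (mul_pos hα0 hβ0).le
  linarith only [h4]

end Pool.Agent.H60.FXE
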