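import Pool.Agent.H60.FXE.Geo

/-!
# MP_ea41d9_gt: the theorem
-/

open Bundle Manifold Filter Set
open scoped ContDiff Topology

namespace Pool.Agent.H60.FXE

open Pool.Agent.H48.FXD Pool.Agent.H48.FXC

section Kernel

variable {M : Type*} [MetricSpace M] {G : Type*} [Group G] [MulAction G M] {F : ℝ → M}
  {m : ℝ → M → ℝ} {L ε c : ℝ}

/-- The kernel of the curve. -/
theorem DirKer.ker (h : DirKer G F m ε c) (hL : 0 < L) (hdiam : ∀ x y : M, dist x y ≤ Real.pi)
    (hper : ∀ t, F (t + L) = F t) (hsimple : ∀ s t, F s = F t → ∃ k : ℤ, s - t = k * L)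
    (hfix : ∀ (g : G) (t : ℝ), g • F t = F t) :
    Ker (fun s t => Real.cos (dist (F s) (F t))) (fun z x => m z (F x)) L ε where
  Lpos := hL
  epos := h.epos
  symm := fun s t => by rw [dist_comm]
  per := fun s t => by rw [hper]
  loc := fun s t hst => by rw [h.geo s t hst, Real.cos_abs]
  one := fun s t hst => by
    have h1 : dist (F s) (F t) = 0 := by
      have h2 := hdiam (F s) (F t)
      have h3 : (0 : ℝ) ≤ dist (F s) (F t) := dist_nonneg
      have h4 := Real.arccos_cos h3 h2
      rw [hst, Real.arccos_one] at h4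
      exact h4.symm
    exact hsimple s t (dist_eq_zero.1 h1)
  lip := fun s t t' => by
    refine (Real.abs_cos_sub_cos_le _ _).trans ?_
    have h1 := lip_of_local h.epos h.geo t t'
    have h2 : |dist (F s) (F t) - dist (F s) (F t')| ≤ dist (F t) (F t') := by
      rw [dist_comm (F s) (F t), dist_comm (F s) (F t')]
      exact abs_dist_sub_le _ _ _
    exact h2.trans h1
  supp := fun x z k hk => h.supp (F x) z k hk
  hinge := fun x y z => h.hinge (F x) (F y) z _ (fun g => by rw [hfix g x])

theorem DirKer.hingeCK (h : DirKer G F m ε c) (hfix : ∀ (g : G) (t : ℝ), g • F t = F t) :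
    HingeC (fun s t => Real.cos (dist (F s) (F t))) (fun z x => m z (F x)) c :=
  fun x y z => h.hingeC (F x) (F y) z _ (fun g => by rw [hfix g x])

/-- A point which is at maximal distance from another orbit, this distance being bigger than
`π / 2`, lies on the curve. -/
theorem DirKer.mem_curve (h : DirKer G F m ε c) (hL : 0 < L)
    (hdiam : ∀ x y : M, dist x y ≤ Real.pi) (hper : ∀ t, F (t + L) = F t)
    (hcont : Continuous F) {p q : M} {κ : ℝ} (hκ : κ < 0)
    (hpq : ∀ g : G, Real.cos (dist (g • p) q) ≤ κ)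
    (hp : ∀ t, κ ≤ Real.cos (dist p (F t))) (hq : ∀ t, κ ≤ Real.cos (dist q (F t))) :
    ∃ t, F t = p := by
  have hu : Continuous fun t => Real.cos (dist p (F t)) :=
    Real.continuous_cos.comp (continuous_const.dist hcont)
  have huper : Function.Periodic (fun t => Real.cos (dist p (F t))) L := fun t => by
    simp only
    rw [hper]
  -- a maximum of the function on the whole line
  obtain ⟨z0, -, hz0⟩ := (isCompact_Icc (a := (0 : ℝ)) (b := L)).exists_isMaxOn
    ⟨0, le_refl _, hL.le⟩ hu.continuousOn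
  have hmax0 : ∀ t, Real.cos (dist p (F t)) ≤ Real.cos (dist p (F z0)) := by
    intro t
    obtain ⟨t', ht', he⟩ := huper.exists_mem_Ico₀ hL t
    rw [he]
    exact hz0 ⟨ht'.1, ht'.2.le⟩
  -- at a maximum the product is at most `κ`
  have hprod : ∀ z, (∀ t, Real.cos (dist p (F t)) ≤ Real.cos (dist p (F z))) →
      Real.cos (dist p (F z)) * Real.cos (dist q (F z)) ≤ κ := by
    intro z hz
    have hm : m z p = 0 := by
      apply eq_zero_of_small (C := Real.cos (dist p (F z))) h.epos
      intro x hx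
      have h1 := h.supp p z x hx.le
      have h2 := hz (z + x)
      linarith only [h1, h2]
    have h1 := h.hinge p q z κ hpq
    rw [hm, zero_mul, add_zero] at h1
    exact h1
  have h1 := hprod z0 hmax0
  have hu1 : Real.cos (dist p (F z0)) ≤ 1 := Real.cos_le_one _
  have hv1 : Real.cos (dist q (F z0)) ≤ 1 := Real.cos_le_one _
  have hvz := hq z0
  have huz := hp z0
  rcases le_or_gt (Real.cos (dist p (F z0))) 0 with h0 | h0
  · exfalso
    -- the function is constant and `q` is every point of the curve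
    have h2 : Real.cos (dist p (F z0)) ≤ κ := by
      nlinarith only [h1, h0, hv1]
    have hall : ∀ t, Real.cos (dist q (F t)) = 1 := by
      intro t
      have e1 : Real.cos (dist p (F t)) = κ := le_antisymm ((hmax0 t).trans h2) (hp t)
      have e2 := hprod t (fun s => by
        rw [e1]
        exact (hmax0 s).trans h2)
      rw [e1] at e2
      have e3 : Real.cos (dist q (F t)) ≤ 1 := Real.cos_le_one _
      nlinarith only [e2, e3, hκ]
    have hzero : ∀ t, dist q (F t) = 0 := by
      intro t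
      have h4 := Real.arccos_cos (dist_nonneg (x := q) (y := F t)) (hdiam q (F t))
      rw [hall t, Real.arccos_one] at h4
      exact h4.symm
    have e1 : dist (F 0) (F ε) = ε := by
      rw [h.geo 0 ε (by rw [zero_sub, abs_neg, abs_of_pos h.epos]), zero_sub, abs_neg,
        abs_of_pos h.epos]
    rw [← dist_eq_zero.1 (hzero 0), hzero ε] at e1
    exact h.epos.ne e1
  · have h2 : 1 ≤ Real.cos (dist p (F z0)) := by
      by_contra hc
      have hc' : Real.cos (dist p (F z0)) < 1 := lt_of_not_ge hc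
      nlinarith only [h1, mul_nonneg h0.le (sub_nonneg.2 hvz),
        mul_pos (neg_pos.2 hκ) (sub_pos.2 hc')]
    have h3 : Real.cos (dist p (F z0)) = 1 := le_antisymm hu1 h2
    have h4 := Real.arccos_cos (dist_nonneg (x := p) (y := F z0)) (hdiam p (F z0))
    rw [h3, Real.arccos_one] at h4
    exact ⟨z0, (dist_eq_zero.1 h4.symm).symm⟩

/-- The length of the curve is at most `2 π` if the diameter of the orbit space is bigger than
`π / 2`. -/
theorem DirKer.length_le (h : DirKer G F m ε c) (hL : 0 < L)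
    (hdiam : ∀ x y : M, dist x y ≤ Real.pi) (hper : ∀ t, F (t + L) = F t)
    (hsimple : ∀ s t, F s = F t → ∃ k : ℤ, s - t = k * L) (hcont : Continuous F)
    (hfix : ∀ (g : G) (t : ℝ), g • F t = F t) (hiso : ∀ (g : G) (x y : M),
      dist (g • x) (g • y) = dist x y) (hc0 : 0 ≤ c) (hc1 : c ≤ 1) {p q : M} {κ : ℝ} (hκ : κ < 0)
    (hcκ : κ * (1 + c) ≤ 3 * c - 1) (hpq : ∀ g : G, Real.cos (dist (g • p) q) ≤ κ)
    (hmin : ∀ (x y : M) (C : ℝ), (∀ g : G, Real.cos (dist (g • x) y) ≤ C) → κ ≤ C) :
    L ≤ 2 * Real.pi := by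
  have hmove : ∀ (g : G) (x : M) (t : ℝ), dist (g • x) (F t) = dist x (F t) := by
    intro g x t
    conv_lhs => rw [← hfix g t]
    exact hiso g x (F t)
  have hp : ∀ x t, κ ≤ Real.cos (dist x (F t)) := fun x t =>
    hmin x (F t) _ (fun g => by rw [hmove g x t])
  have hqp : ∀ g : G, Real.cos (dist (g • q) p) ≤ κ := by
    intro g
    have h1 := hpq g⁻¹
    have h2 : dist (g⁻¹ • p) q = dist (g • q) p := by
      rw [← hiso g (g⁻¹ • p) q, smul_inv_smul, dist_comm]
    rwa [h2] at h1
  obtain ⟨s0, hs0⟩ := h.mem_curve hL hdiam hper hcont hκ hpq (hp p) (hp q)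
  obtain ⟨t0, ht0⟩ := h.mem_curve hL hdiam hper hcont hκ hqp (hp q) (hp p)
  have hval : Real.cos (dist (F s0) (F t0)) = κ := by
    apply le_antisymm
    · have := hpq 1
      rw [one_smul, ← hs0, ← ht0] at this
      exact this
    · exact hp (F s0) t0
  have hK := h.ker hL hdiam hper hsimple hfix
  have hCK := h.hingeCK hfix
  have hcur : CurveKer F L := ⟨fun s t => hdiam _ _, hper, _, _, hK⟩
  have hmax : ∀ s t, dist (F s) (F t) ≤ dist (F s0) (F t0) := by
    intro s t
    by_contra hc
    have h1 := Real.cos_lt_cos_of_nonneg_of_le_pi dist_nonneg (hdiam (F s) (F t))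
      (lt_of_not_ge hc)
    rw [hval] at h1
    exact absurd (hp (F s) t) (not_le.2 h1)
  have hD : Real.pi / 2 < dist (F s0) (F t0) := by
    by_contra hc
    have h1 := Real.cos_nonneg_of_mem_Icc (x := dist (F s0) (F t0))
      ⟨by linarith only [dist_nonneg (x := F s0) (y := F t0), Real.pi_pos], not_lt.1 hc⟩
    rw [hval] at h1
    exact absurd h1 (not_le.2 hκ)
  obtain ⟨b, hb, hbL, hFb, hmin', hneg⟩ := hcur.maxPair hmax hD
  have hval' : Real.cos (dist (F (0 + s0)) (F (b + s0))) = Real.cos (dist (F s0) (F t0)) := by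
    rw [zero_add, add_comm b s0, hFb]
  have hK' : Ker (fun s t => Real.cos (dist (F (s + s0)) (F (t + s0))))
      (fun z x => m (z + s0) (F (x + s0))) L ε := hK.shift s0
  have hC' : HingeC (fun s t => Real.cos (dist (F (s + s0)) (F (t + s0))))
      (fun z x => m (z + s0) (F (x + s0))) c := hCK.shift s0
  refine circle_le hK' hC' hc0 hc1 (b := b) hb hbL (fun s t => ?_) ?_ ?_
  · rw [hval']
    exact hmin' _ _
  · rw [hval']
    exact hneg
  · rw [hval', hval]
    exact hcκ

/-- On a compact space there is a pair of points whose orbits have maximal distance. -/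
theorem exists_pair [CompactSpace M] [Nonempty M] (hcont : ∀ g : G, Continuous fun x : M => g • x) :
    ∃ (p q : M) (κ : ℝ), (∀ g : G, Real.cos (dist (g • p) q) ≤ κ) ∧
      ∀ (x y : M) (C : ℝ), (∀ g : G, Real.cos (dist (g • x) y) ≤ C) → κ ≤ C := by
  have hbdd : ∀ x : M × M, BddAbove (range fun g : G => Real.cos (dist (g • x.1) x.2)) := by
    intro x
    refine ⟨1, ?_⟩
    rintro _ ⟨g, rfl⟩
    exact Real.cos_le_one _
  have hlsc : LowerSemicontinuous fun x : M × M => ⨆ g : G, Real.cos (dist (g • x.1) x.2) := by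
    apply lowerSemicontinuous_ciSup hbdd
    intro g
    apply Continuous.lowerSemicontinuous
    exact Real.continuous_cos.comp (((hcont g).comp continuous_fst).dist continuous_snd)
  obtain ⟨x, -, hx⟩ := LowerSemicontinuousOn.exists_isMinOn (s := (univ : Set (M × M)))
    univ_nonempty isCompact_univ (hlsc.lowerSemicontinuousOn _)
  rw [isMinOn_iff] at hx
  obtain ⟨κ, hκ⟩ : ∃ κ : ℝ, κ = ⨆ g : G, Real.cos (dist (g • x.1) x.2) := ⟨_, rfl⟩
  have h1 : ∀ g : G, Real.cos (dist (g • x.1) x.2) ≤ κ := by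
    intro g
    rw [hκ]
    exact le_ciSup (f := fun g : G => Real.cos (dist (g • x.1) x.2)) (hbdd x) g
  have h2 : ∀ (a b : M) (C : ℝ), (∀ g : G, Real.cos (dist (g • a) b) ≤ C) → κ ≤ C := by
    intro a b C hC
    have h1 : (⨆ g : G, Real.cos (dist (g • x.1) x.2)) ≤
        ⨆ g : G, Real.cos (dist (g • a) b) := hx (a, b) (mem_univ (a, b))
    rw [hκ]
    exact h1.trans (ciSup_le hC)
  exact ⟨x.1, x.2, κ, h1, h2⟩

end Kernel

variable {E : Type*} [NormedAddCommGroup E] [NormedSpace ℝ E] [FiniteDimensional ℝ E]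
  {M : Type*} [MetricSpace M] [ChartedSpace E M] [IsManifold 𝓘(ℝ, E) ∞ M]
  [RiemannianBundle (fun x : M => TangentSpace 𝓘(ℝ, E) x)]
  [IsContMDiffRiemannianBundle 𝓘(ℝ, E) ∞ E (fun x : M => TangentSpace 𝓘(ℝ, E) x)]
  [IsRiemannianManifold 𝓘(ℝ, E) M]
  {G : Type*} [Group G] [TopologicalSpace G] [IsTopologicalGroup G] [CompactSpace G]
  [MulAction G M] {F : ℝ → M} {L : ℝ}

theorem circle_length_le [CompactSpace M] (hM : CurvGeOne M) (hG : IsometricAction E M G)
    (hF : FixedCircle E G F L) {c : ℝ} (hc0 : 0 ≤ c) (hc1 : c ≤ 1) (hN : NormalAngle E G F c)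
    {p q : M} (hpq : ∀ g : G, Real.pi / 2 < dist (g • p) q)
    (hc : ∀ g : G, (1 + c) * Real.cos (dist (g • p) q) ≤ 3 * c - 1) : L ≤ 2 * Real.pi := by
  obtain ⟨m, ε, h⟩ := exists_dirKer hM hG hF (fun t v hv => fixed_vector hG hF t v hv) hN
  have hact : Continuous fun x : G × M => x.1 • x.2 := Pool.Agent.H5.FXD.pf_MCA hG
  have hne : Nonempty M := ⟨p⟩
  obtain ⟨p', q', κ, h1, h2⟩ := exists_pair (M := M) (G := G) (fun g =>
    hact.comp (continuous_const.prodMk continuous_id))
  -- the given pair of orbits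
  obtain ⟨g0, -, hg0⟩ := (isCompact_univ (X := G)).exists_isMaxOn univ_nonempty
    (f := fun g : G => Real.cos (dist (g • p) q))
    (Real.continuous_cos.comp (Continuous.dist (hact.comp (continuous_id.prodMk
      continuous_const)) continuous_const)).continuousOn
  have h3 : κ ≤ Real.cos (dist (g0 • p) q) := h2 p q _ (fun g => hg0 (mem_univ g))
  have h4 : Real.cos (dist (g0 • p) q) < 0 :=
    Real.cos_neg_of_pi_div_two_lt_of_lt (hpq g0)
      (by linarith only [hM.diam_le (g0 • p) q, Real.pi_pos])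
  have h5 : κ * (1 + c) ≤ 3 * c - 1 := by
    have h6 := mul_le_mul_of_nonneg_right h3 (show (0 : ℝ) ≤ 1 + c by linarith only [hc0])
    have h7 := hc g0
    linarith only [h6, h7]
  exact h.length_le hF.length_pos hM.diam_le hF.periodic hF.simple hF.smooth.continuous
    hF.smul_eq (Pool.Agent.H7.FXD.pf_DMP hG) hc0 hc1 (h3.trans_lt h4) h5 h1 h2

end Pool.Agent.H60.FXE
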