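import Pool.Agent.H60.FXE.Dir

/-!
# MP_ea41d9_gt: the inequalities for the distances from the points of a fixed circle to arbitrary
points
-/

open Bundle Manifold Filter Set
open scoped ContDiff Topology

namespace Pool.Agent.H60.FXE

open Pool.Agent.H48.FXD Pool.Agent.H48.FXC

variable {E : Type*} [NormedAddCommGroup E] [NormedSpace ℝ E] [FiniteDimensional ℝ E]
  {M : Type*} [MetricSpace M] [ChartedSpace E M] [IsManifold 𝓘(ℝ, E) ∞ M]
  [RiemannianBundle (fun x : M => TangentSpace 𝓘(ℝ, E) x)]
  [IsContMDiffRiemannianBundle 𝓘(ℝ, E) ∞ E (fun x : M => TangentSpace 𝓘(ℝ, E) x)]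
  [IsRiemannianManifold 𝓘(ℝ, E) M]
  {G : Type*} [Group G] [TopologicalSpace G] [MulAction G M] {F : ℝ → M} {L : ℝ}

/-- The inequalities for the function `cos (dist x (F z))`; `m z x` is a supporting slope. -/
structure DirKer {M : Type*} [MetricSpace M] (G : Type*) [Group G] [MulAction G M] (F : ℝ → M)
    (m : ℝ → M → ℝ) (ε c : ℝ) : Prop where
  epos : 0 < ε
  geo : ∀ s t, |s - t| ≤ ε → dist (F s) (F t) = |s - t|
  supp : ∀ (x : M) (z h : ℝ), |h| ≤ ε → Real.cos (dist x (F z)) * Real.cos h +
    m z x * Real.sin h ≤ Real.cos (dist x (F (z + h)))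
  hinge : ∀ (x y : M) (z C : ℝ), (∀ g : G, Real.cos (dist (g • x) y) ≤ C) →
    Real.cos (dist x (F z)) * Real.cos (dist y (F z)) + m z x * m z y ≤ C
  hingeC : ∀ (x y : M) (z C : ℝ), (∀ g : G, Real.cos (dist (g • x) y) ≤ C) →
    Real.cos (dist x (F z)) * Real.cos (dist y (F z)) + m z x * m z y +
      c * (Real.sqrt (1 - Real.cos (dist x (F z)) ^ 2 - m z x ^ 2) *
        Real.sqrt (1 - Real.cos (dist y (F z)) ^ 2 - m z y ^ 2)) ≤ C

theorem sqrt_normal {d a : ℝ} (hd : 0 ≤ Real.sin d) :
    Real.sqrt (1 - Real.cos d ^ 2 - (Real.sin d * a) ^ 2) = Real.sin d * Real.sqrt (1 - a ^ 2) := by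
  have h1 : 1 - Real.cos d ^ 2 - (Real.sin d * a) ^ 2 = Real.sin d ^ 2 * (1 - a ^ 2) := by
    rw [Real.cos_sq']
    ring
  rw [h1, Real.sqrt_mul (sq_nonneg _), Real.sqrt_sq hd]

theorem exists_dirKer (hM : CurvGeOne M) (hact : IsometricAction E M G)
    (hF : FixedCircle E G F L)
    (hfix : ∀ (t : ℝ) (v : E), (∀ g : G, dg g (F t) v = v) → ∃ r : ℝ, v = r • vel E F t)
    {c : ℝ} (hN : NormalAngle E G F c) : ∃ m ε, DirKer G F m ε c := by
  have hDLB : ∀ z : M, ∀ r : ℝ, 1 < r → ∀ᶠ x in 𝓝 z,
      tn z (extChartAt 𝓘(ℝ, E) z x - extChartAt 𝓘(ℝ, E) z z) ≤ r * dist z x :=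
    fun z r hr => Pool.Agent.H15.FXD.pf_DLB z hr
  have hDUB : ∀ z : M, ∀ r : ℝ, 1 < r → ∀ᶠ p : M × M in 𝓝 (z, z),
      dist p.1 p.2 ≤ r * tn z (extChartAt 𝓘(ℝ, E) z p.1 - extChartAt 𝓘(ℝ, E) z p.2) :=
    fun z r hr => Pool.Agent.H79.FXD.pf_DUB z hr
  obtain ⟨ε, hε, hgeo⟩ := hF.geodesic
  -- geodesics and their limit directions
  have hex : ∀ (z : ℝ) (x : M), ∃ (c : ℝ → M) (v : E), MinGeo c (F z) x ∧
      (F z ≠ x → LimDir (F z) c v ∧ tn (F z) v = 1) := by
    intro z x
    obtain ⟨c, hc⟩ := hM.geodesic (F z) x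
    by_cases h : F z = x
    · exact ⟨c, 0, hc, fun h' => absurd h h'⟩
    · obtain ⟨v, hv, hv1⟩ := exists_limDir hDLB hc h
      exact ⟨c, v, hc, fun _ => ⟨hv, le_antisymm hv1 (one_le_tn hDUB hc h hv)⟩⟩
  choose c' v hcv using hex
  have hfor : ∀ (z h : ℝ), 0 < h → h ≤ ε → F z ≠ F (z + h) := by
    intro z h h0 hh he
    have h1 := (minGeo_forward hF hgeo z h0.le hh).1
    rw [← he, dist_self] at h1
    exact h0.ne h1
  have hback : ∀ (z h : ℝ), 0 < h → h ≤ ε → F z ≠ F (z - h) := by
    intro z h h0 hh he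
    have h1 := (minGeo_backward hF hgeo z h0.le hh).1
    rw [← he, dist_self] at h1
    exact h0.ne h1
  have hsin : ∀ (z : ℝ) (x : M), 0 ≤ Real.sin (dist (F z) x) := fun z x =>
    Real.sin_nonneg_of_nonneg_of_le_pi dist_nonneg (hM.diam_le (F z) x)
  -- the hinge inequality for the translates
  have hmove : ∀ (x y : M) (z C : ℝ), F z ≠ x → F z ≠ y →
      (∀ g : G, Real.cos (dist (g • x) y) ≤ C) → ∀ g : G,
      Real.cos (dist (F z) x) * Real.cos (dist (F z) y) +
        Real.sin (dist (F z) x) * Real.sin (dist (F z) y) *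
          tin (F z) (dg g (F z) (v z x)) (v z y) ≤ C := by
    intro x y z C hzx hzy hC g
    obtain ⟨hv1, hv2⟩ := (hcv z x).2 hzx
    obtain ⟨hw1, hw2⟩ := (hcv z y).2 hzy
    have hgz : g • F z = F z := hF.smul_eq g z
    have hdg : dist (F z) (g • x) = dist (F z) x := by
      conv_lhs => rw [← hgz]
      exact Pool.Agent.H7.FXD.pf_DMP hact g (F z) x
    have hm : MinGeo (fun s => g • c' z x s) (F z) (g • x) := by
      refine ⟨?_, ?_, fun s hs r hr => ?_⟩
      · rw [(hcv z x).1.start, hgz]
      · rw [hdg, (hcv z x).1.finish]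
      · rw [hdg] at hs hr
        rw [Pool.Agent.H7.FXD.pf_DMP hact]
        exact (hcv z x).1.isom s hs r hr
    have hzgx : F z ≠ g • x := by
      intro h
      rw [← dist_eq_zero, hdg, dist_eq_zero] at h
      exact hzx h
    have hl : LimDir (F z) (fun s => g • c' z x s) (dg g (F z) (v z x)) :=
      Pool.Agent.H7.FXD.pf_LDG (hact.smooth g) hgz ((hcv z x).1.tendsto hzx) hv1
    have h1 := hinge_lim hM hDUB hm (hcv z y).1 hzgx hzy hl hw1
      (by rw [dg_tn hact hgz]; exact hv2.le) hw2.le
    rw [hdg] at h1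
    exact h1.trans (hC g)
  have hhinge : ∀ (x y : M) (z C : ℝ), (∀ g : G, Real.cos (dist (g • x) y) ≤ C) →
      Real.cos (dist x (F z)) * Real.cos (dist y (F z)) +
        Real.sin (dist (F z) x) * tin (F z) (v z x) (vel E F z) *
        (Real.sin (dist (F z) y) * tin (F z) (v z y) (vel E F z)) ≤ C := by
    intro x y z C hC
    have hC1 : Real.cos (dist x y) ≤ C := by
      have := hC 1
      rwa [one_smul] at this
    by_cases hzx : F z = x
    · rw [← hzx, dist_self, Real.sin_zero, zero_mul, zero_mul, add_zero, Real.cos_zero,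
        one_mul, dist_comm y (F z), hzx]
      exact hC1
    · by_cases hzy : F z = y
      · rw [← hzy, dist_self, Real.sin_zero, zero_mul, mul_zero, add_zero, Real.cos_zero,
          mul_one, hzy]
        exact hC1
      · have h1 := averaged hact hF z (hfix z) (v z x) (v z y)
            (Real.cos (dist (F z) x) * Real.cos (dist (F z) y))
            (Real.sin (dist (F z) x) * Real.sin (dist (F z) y)) C
            (hmove x y z C hzx hzy hC)
        rw [tin_comm (F z) (vel E F z) (v z y)] at h1
        rw [dist_comm x (F z), dist_comm y (F z)]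
        linarith only [h1]
  refine ⟨fun z x => Real.sin (dist (F z) x) * tin (F z) (v z x) (vel E F z), ε, ?_⟩
  exact {
    epos := hε
    geo := hgeo
    supp := fun x z h hh => by
      by_cases hzx : F z = x
      · rw [← hzx, dist_self, Real.sin_zero, zero_mul, zero_mul, add_zero, Real.cos_zero,
          one_mul, hgeo z (z + h) (by rwa [sub_add_cancel_left, abs_neg]),
          sub_add_cancel_left, abs_neg, Real.cos_abs]
      · obtain ⟨hv1, hv2⟩ := (hcv z x).2 hzx
        rcases lt_trichotomy h 0 with h0 | h0 | h0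
        · have hh' : -h ≤ ε := (neg_le_abs h).trans hh
          obtain ⟨hd, hm⟩ := minGeo_backward hF hgeo z (h := -h) (by linarith only [h0]) hh'
          have h1 := hinge_lim hM hDUB (hcv z x).1 hm hzx
            (hback z (-h) (by linarith only [h0]) hh') hv1 (limDir_backward hF z) hv2.le
            (by rw [tn_neg, tn_vel hF z])
          rw [hd, Real.cos_neg, Real.sin_neg, tin_neg_right, sub_neg_eq_add] at h1
          rw [dist_comm x (F z)]
          linarith only [h1]
        · rw [h0, Real.cos_zero, Real.sin_zero, mul_zero, mul_one, add_zero, add_zero]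
        · have hh' : h ≤ ε := (le_abs_self h).trans hh
          obtain ⟨hd, hm⟩ := minGeo_forward hF hgeo z (h := h) h0.le hh'
          have h1 := hinge_lim hM hDUB (hcv z x).1 hm hzx (hfor z h h0 hh') hv1
            (limDir_forward hF z) hv2.le (by rw [tn_vel hF z])
          rw [hd] at h1
          rw [dist_comm x (F z)]
          linarith only [h1]
    hinge := hhinge
    hingeC := fun x y z C hC => by
      have hh := hhinge x y z C hC
      have hx : Real.sqrt (1 - Real.cos (dist x (F z)) ^ 2 -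
          (Real.sin (dist (F z) x) * tin (F z) (v z x) (vel E F z)) ^ 2) =
          Real.sin (dist (F z) x) * Real.sqrt (1 - tin (F z) (v z x) (vel E F z) ^ 2) := by
        rw [dist_comm x (F z)]
        exact sqrt_normal (hsin z x)
      have hy : Real.sqrt (1 - Real.cos (dist y (F z)) ^ 2 -
          (Real.sin (dist (F z) y) * tin (F z) (v z y) (vel E F z)) ^ 2) =
          Real.sin (dist (F z) y) * Real.sqrt (1 - tin (F z) (v z y) (vel E F z) ^ 2) := by
        rw [dist_comm y (F z)]
        exact sqrt_normal (hsin z y)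
      rw [hx, hy]
      by_cases hzx : F z = x
      · have h0 : Real.sin (dist (F z) x) = 0 := by rw [hzx, dist_self, Real.sin_zero]
        rw [h0] at hh ⊢
        simp only [zero_mul, mul_zero, add_zero] at hh ⊢
        exact hh
      · by_cases hzy : F z = y
        · have h0 : Real.sin (dist (F z) y) = 0 := by rw [hzy, dist_self, Real.sin_zero]
          rw [h0] at hh ⊢
          simp only [zero_mul, mul_zero, add_zero] at hh ⊢
          exact hh
        · obtain ⟨hv1, hv2⟩ := (hcv z x).2 hzx
          obtain ⟨hw1, hw2⟩ := (hcv z y).2 hzy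
          rcases le_or_gt 1 (tin (F z) (v z x) (vel E F z) ^ 2) with ha | ha
          · have h0 : Real.sqrt (1 - tin (F z) (v z x) (vel E F z) ^ 2) = 0 :=
              Real.sqrt_eq_zero_of_nonpos (by linarith only [ha])
            rw [h0]
            simp only [zero_mul, mul_zero, add_zero]
            exact hh
          · rcases le_or_gt 1 (tin (F z) (v z y) (vel E F z) ^ 2) with hb | hb
            · have h0 : Real.sqrt (1 - tin (F z) (v z y) (vel E F z) ^ 2) = 0 :=
                Real.sqrt_eq_zero_of_nonpos (by linarith only [hb])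
              rw [h0]
              simp only [mul_zero, add_zero]
              exact hh
            · obtain ⟨g, hg⟩ := exists_move hact hF hN z hv2 hw2 ha hb
              have h1 := hmove x y z C hzx hzy hC g
              have h2 := mul_le_mul_of_nonneg_left hg (mul_nonneg (hsin z x) (hsin z y))
              rw [dist_comm x (F z), dist_comm y (F z)]
              linarith only [h1, h2] }

end Pool.Agent.H60.FXE
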